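import Pool.Agent.Lib.MP_8a3537_gt.LL.Main

/-!
# Only lines matter, for an arbitrary class of good subgroups (MP_8a3537_gt, folder LLX)

The theorem of the folder LL with an arbitrary predicate `Q` on subgroups of `G` instead of `ROW.RgW`. The only
hypothesis on `Q` is that the forms of the exchanged pairs with stabilizer in `Q` are stably hyperbolic
(`SE`). The proofs are those of `LL/GQS`, `LL/CHN`, `LL/FLL`, `LL/HLN`, `LL/Main` (helper75, helper28 and others).
-/

set_option autoImplicit false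

namespace Pool.Agent.Lib.MP8a3537.LLX

open Matrix Pool.Agent.Lib.MP8a3537.UV Pool.Agent.Lib.MP8a3537.AU Pool.Agent.Lib.MP8a3537.RO
open Pool.Agent.Lib.MP8a3537.ROK Pool.Agent.Lib.MP8a3537.LL

section

variable (R G : Type) {V : Type} [Ring R] [StarRing R] [Group G] [MulAction G V] (Q : Subgroup G → Prop)
  (d : V → V → ℕ)

/-- Good pairs. -/
inductive GQ : V → V → Prop
  | reg {x1 x2 : V} : Q (MulAction.stabilizer G x1 ⊓ MulAction.stabilizer G x2) → GQ x1 x2
  | step {x1 x2 : V} : HS R G d x1 x2 →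
      (∀ f : G, f • f • x1 = x1 → d x1 (f • x1) = d x1 x2 + d x2 (f • x1) →
        ¬ Ns (MulAction.stabilizer G x1 ⊓ MulAction.stabilizer G x2) f → GQ x1 (f • x1)) →
      (∀ f : G, f • f • x2 = x2 → d x2 (f • x2) = d x2 x1 + d x1 (f • x2) →
        ¬ Ns (MulAction.stabilizer G x2 ⊓ MulAction.stabilizer G x1) f → GQ x2 (f • x2)) →
      GQ x1 x2

end

section

variable {R G V : Type} [Ring R] [StarRing R] [Group G] [MulAction G V] {Q : Subgroup G → Prop}
  {d : V → V → ℕ}

/-- Good pairs have property `SE`. -/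
theorem se_of_gq (hd : TM G d)
    (hQ : ∀ x y : V, Q (MulAction.stabilizer G x ⊓ MulAction.stabilizer G y) → SE R G d x y)
    {x1 x2 : V} (h : GQ R G Q d x1 x2) : SE R G d x1 x2 := by
  induction h with
  | reg h => exact hQ _ _ h
  | step hS _ _ ih1 ih2 => exact (mCLM R G V d hd _ _ ih1 ih2 hS).2

theorem gq_symm {x y : V} (h : GQ R G Q d x y) : GQ R G Q d y x := by
  cases h with
  | reg h => exact GQ.reg (by rw [inf_comm]; exact h)
  | step h1 h2 h3 => exact GQ.step (CHNM.hs_symm h1) h3 h2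

end

open CHNM in
theorem chn (R G V : Type) [Ring R] [StarRing R] [Group G] [MulAction G V] (Q : Subgroup G → Prop)
    (d : V → V → ℕ) (hd : TM G d) (v w : V)
    (hline : ∀ x y : V, d x y = d x v + d v w + d w y → (∃ g : G, g • x = y ∧ g • y = x) →
      Q (MulAction.stabilizer G x ⊓ MulAction.stabilizer G y) ∨ HS R G d x y)
    (hchain : ∀ x y : ℕ → V, (∀ i, d (x i) (y i) = d (x i) v + d v w + d w (y i)) →
      (∀ i, ∃ g : G, g • x i = y i ∧ g • y i = x i) →
      (∀ i, d (x (i + 1)) (y (i + 1)) = d (x (i + 1)) (x i) + d (x i) (y i) + d (y i) (y (i + 1))) →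
      (∀ i, MulAction.stabilizer G (x (i + 1)) ⊓ MulAction.stabilizer G (y (i + 1)) <
        MulAction.stabilizer G (x i) ⊓ MulAction.stabilizer G (y i)) →
      ∃ i, Q (MulAction.stabilizer G (x i) ⊓ MulAction.stabilizer G (y i))) :
    ∀ x y : V, d x y = d x v + d v w + d w y → (∃ g : G, g • x = y ∧ g • y = x) →
      GQ R G Q d x y := by
  intro x0 y0 hP0 hex0
  by_contra hbad0
  let B : Type := {p : V × V // d p.1 p.2 = d p.1 v + d v w + d w p.2 ∧
    (∃ g : G, g • p.1 = p.2 ∧ g • p.2 = p.1) ∧ ¬ GQ R G Q d p.1 p.2}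
  have step : ∀ b : B, ∃ b' : B,
      d b'.1.1 b'.1.2 = d b'.1.1 b.1.1 + d b.1.1 b.1.2 + d b.1.2 b'.1.2 ∧
      MulAction.stabilizer G b'.1.1 ⊓ MulAction.stabilizer G b'.1.2 <
        MulAction.stabilizer G b.1.1 ⊓ MulAction.stabilizer G b.1.2 := by
    rintro ⟨⟨x, y⟩, hP, hex, hbad⟩
    have hP' : d x y = d x v + d v w + d w y := hP
    have hHS : HS R G d x y := by
      rcases hline x y hP hex with h | h
      · exact absurd (GQ.reg h) hbad
      · exact h
    by_cases hA : ∀ f : G, f • f • x = x → d x (f • x) = d x y + d y (f • x) →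
        ¬ Ns (MulAction.stabilizer G x ⊓ MulAction.stabilizer G y) f → GQ R G Q d x (f • x)
    · by_cases hB : ∀ f : G, f • f • y = y → d y (f • y) = d y x + d x (f • y) →
          ¬ Ns (MulAction.stabilizer G y ⊓ MulAction.stabilizer G x) f → GQ R G Q d y (f • y)
      · exact absurd (GQ.step hHS hA hB) hbad
      · push Not at hB
        obtain ⟨f, h1, h2, h3, h4⟩ := hB
        refine ⟨⟨(f • y, y), ?_, ⟨f, h1, rfl⟩, fun h => h4 (LLX.gq_symm h)⟩, ?_, ?_⟩
        · show d (f • y) y = d (f • y) v + d v w + d w y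
          have t1 := hd.tri (f • y) x v
          have t2 := hd.tri (f • y) v y
          have t3 := hd.tri v w y
          have c1 := hd.cm (f • y) y
          have c2 := hd.cm y x
          have c3 := hd.cm x (f • y)
          omega
        · show d (f • y) y = d (f • y) x + d x y + d y y
          have t1 := (hd.d0 y y).2 rfl
          have c1 := hd.cm (f • y) y
          have c2 := hd.cm y x
          have c3 := hd.cm x (f • y)
          omega
        · show MulAction.stabilizer G (f • y) ⊓ MulAction.stabilizer G y <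
            MulAction.stabilizer G x ⊓ MulAction.stabilizer G y
          rw [inf_comm (MulAction.stabilizer G (f • y)), inf_comm (MulAction.stabilizer G x)]
          exact lt_of hd h1 h2 h3
    · push Not at hA
      obtain ⟨f, h1, h2, h3, h4⟩ := hA
      refine ⟨⟨(x, f • x), ?_, ⟨f, rfl, h1⟩, h4⟩, ?_, ?_⟩
      · show d x (f • x) = d x v + d v w + d w (f • x)
        have t1 := hd.tri w y (f • x)
        have t2 := hd.tri x v (f • x)
        have t3 := hd.tri v w (f • x)
        omega
      · show d x (f • x) = d x x + d x y + d y (f • x)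
        have t1 := (hd.d0 x x).2 rfl
        omega
      · exact lt_of hd h1 h2 h3
  choose nx hn1 hn2 using step
  let s : ℕ → B := fun n => Nat.rec ⟨(x0, y0), hP0, hex0, hbad0⟩ (fun _ b => nx b) n
  obtain ⟨i, hi⟩ := hchain (fun n => (s n).1.1) (fun n => (s n).1.2) (fun n => (s n).2.1)
    (fun n => (s n).2.2.1) (fun n => hn1 (s n)) (fun n => hn2 (s n))
  exact (s i).2.2.2 (GQ.reg hi)


/-- The theorem for trees. -/
theorem fll (R G V : Type) [Ring R] [StarRing R] [Group G] [MulAction G V] (Q : Subgroup G → Prop)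
    (T : SimpleGraph V) (v w : V)
    (hQ : ∀ x y : V, Q (MulAction.stabilizer G x ⊓ MulAction.stabilizer G y) → SE R G T.dist x y)
    (hT : T.IsTree) (hact : ∀ (g : G) (x y : V), T.Adj x y → T.Adj (g • x) (g • y))
    (hvw : T.Adj v w) (hinv : ∀ g : G, ¬ (g • v = w ∧ g • w = v))
    (htwo : ∀ g : G, g * g = 1 → (g • v = v ↔ g • w = w))
    (hline : ∀ x y : V, T.dist x y = T.dist x v + 1 + T.dist w y →
      (∃ g : G, g • x = y ∧ g • y = x) →
      Q (MulAction.stabilizer G x ⊓ MulAction.stabilizer G y) ∨ HS R G T.dist x y)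
    (hchain : ∀ x y : ℕ → V, (∀ i, T.dist (x i) (y i) = T.dist (x i) v + 1 + T.dist w (y i)) →
      (∀ i, ∃ g : G, g • x i = y i ∧ g • y i = x i) →
      (∀ i, T.dist (x (i + 1)) (y (i + 1)) =
        T.dist (x (i + 1)) (x i) + T.dist (x i) (y i) + T.dist (y i) (y (i + 1))) →
      (∀ i, MulAction.stabilizer G (x (i + 1)) ⊓ MulAction.stabilizer G (y (i + 1)) <
        MulAction.stabilizer G (x i) ⊓ MulAction.stabilizer G (y i)) →
      ∃ i, Q (MulAction.stabilizer G (x i) ⊓ MulAction.stabilizer G (y i)))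
    (ε : ℤˣ) (n : ℕ) (ψ μ χ : Matrix (Fin n) (Fin n) (MonoidAlgebra R G))
    (hψ : SuppIn {g | g • v = v ∧ g • w ≠ w} ψ) (hμ : SuppIn {g | g • v = w} μ)
    (hχ : SuppIn {g | g • w = w ∧ g • v ≠ v} χ)
    (hnil : IsNilpotent (nu ε (ψ + (ε : ℤ) • ψᴴ) μ (χ + (ε : ℤ) • χᴴ))) :
    StablyHyperbolic ε (UF ψ μ χ) := by
  have hd : TM G (V := V) T.dist := specFPT G V T hT hact
  have hG := specTRG G V T v w hT hact hvw hinv
  have h1 : T.dist v w = 1 := SimpleGraph.dist_eq_one_iff_adj.2 hvw
  have hgood := chn R G V Q T.dist hd v w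
    (by
      intro x y hxy
      rw [h1] at hxy
      exact hline x y hxy)
    (by
      intro x y hxy
      simp only [h1] at hxy
      exact hchain x y hxy)
  obtain ⟨Yp, Ym, hP⟩ := specTRK G V T v w hT hact hvw hinv htwo
  refine mMNK R G V T.dist hd _ _ _ _ Yp Ym w v hP hG ?_ ?_ ε n ψ μ χ hψ hμ hχ hnil
  · intro g hg hgg
    have h3 : (g * g) • w = w := hgg.2
    rw [mul_smul] at h3
    have h4 : g • w ∈ DD T.dist w v false := by
      refine hG.mv false true g w ⟨hg.1, hg.2⟩ ?_
      change T.dist v w = T.dist v w + T.dist w w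
      rw [(hd.d0 w w).2 rfl, Nat.add_zero]
    have h5 : T.dist w (g • w) = T.dist w v + T.dist v (g • w) := h4
    refine se_of_gq hd hQ (gq_symm (hgood (g • w) w ?_ ⟨g, h3, rfl⟩))
    rw [hd.cm (g • w) w, h5, (hd.d0 w w).2 rfl, hd.cm w v, hd.cm v (g • w)]
    omega
  · intro g hg hgg
    have h3 : (g * g) • v = v := hgg.1
    rw [mul_smul] at h3
    have h4 : g • v ∈ DD T.dist w v true := by
      refine hG.mv true false g v ⟨hg.1, hg.2⟩ ?_
      change T.dist w v = T.dist w v + T.dist v v
      rw [(hd.d0 v v).2 rfl, Nat.add_zero]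
    have h5 : T.dist v (g • v) = T.dist v w + T.dist w (g • v) := h4
    refine se_of_gq hd hQ (hgood v (g • v) ?_ ⟨g, rfl, h3⟩)
    rw [h5, (hd.d0 v v).2 rfl]
    omega


open HLNM in
/-- the hypothesis for the exact exchanges implies the line condition. -/
theorem hln (R G V : Type) [Ring R] [StarRing R] [Group G] [MulAction G V]
    (Q : Subgroup G → Prop) (d : V → V → ℕ)
    (hd : TM G d) (v w : V)
    (hl : ∀ (x y : V) (g f : G), d x y = d x v + d v w + d w y → g • x = y → g • y = x →
      Ns (MulAction.stabilizer G x ⊓ MulAction.stabilizer G y) f →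
      f * f ∈ MulAction.stabilizer G x ⊓ MulAction.stabilizer G y →
      d y (f • y) = d y x + d x (f • y) → f • y ≠ x →
      (∀ h ∈ MulAction.stabilizer G x ⊓ MulAction.stabilizer G y, h * g * (h * g) ≠ 1) →
      (∀ h ∈ MulAction.stabilizer G x ⊓ MulAction.stabilizer G y, h * f * (h * f) ≠ 1) →
      Q (MulAction.stabilizer G x ⊓ MulAction.stabilizer G y) ∨ Blk R (La (MulAction.stabilizer G x ⊓ MulAction.stabilizer G y) g)
        (La (MulAction.stabilizer G x ⊓ MulAction.stabilizer G y) f)) :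
    ∀ x y : V, x ≠ y → d x y = d x v + d v w + d w y →
      Q (MulAction.stabilizer G x ⊓ MulAction.stabilizer G y) ∨ HS R G d x y := by
  intro x y hne hxy
  by_cases hr : Q (MulAction.stabilizer G x ⊓ MulAction.stabilizer G y)
  · exact Or.inl hr
  refine Or.inr ?_
  intro u f hu hf huu hff hux hfy hnd hou hof
  have hK := stab_eq hd hu hux
  have huu' : u • u • x = x := by
    have h : (u * u) • x = x := huu.1
    rwa [mul_smul] at h
  have hff2 : f • f • y = y := by
    have h : (f * f) • y = y := hff.2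
    rwa [mul_smul] at h
  have htfa := specTFA G V d hd
  -- the position of `v`, `w`
  have t1 := hd.tri x v (u • x)
  have t2 := hd.tri v w (u • x)
  have t3 := hd.tri w y (u • x)
  have hxy' : d x (u • x) = d x v + d v w + d w (u • x) := by omega
  -- `x` is between `y` and `f y`, `f y` is between `f x` and `f (u x)`
  have hfne : f • x ≠ f • y := fun h => hne (MulAction.injective f h)
  have i1 : d (f • x) (f • u • x) = d (f • x) (f • y) + d (f • y) (f • u • x) := by
    rw [hd.iso, hd.iso, hd.iso]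
    exact hux
  have i2 : d (f • y) y = d (f • y) (f • x) + d (f • x) y := by
    have e1 : d (f • y) (f • f • y) = d (f • y) (f • x) + d (f • x) (f • f • y) := by
      rw [hd.iso, hd.iso, hd.iso]
      exact hfy
    rwa [hff2] at e1
  have i3 := htfa.2.1 (f • x) (f • y) (f • u • x) y hfne i1 i2
  have c1 := hd.cm (f • u • x) y
  have c2 := hd.cm (f • y) y
  have c3 := hd.cm (f • u • x) (f • y)
  have i4 : d y (f • u • x) = d y (f • y) + d (f • y) (f • u • x) := by omega
  have i5 : d y (f • u • x) = d y x + d x (f • u • x) := htfa.2.2 y x (f • y) (f • u • x) hfy i4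
  have i6 := htfa.2.1 y x (f • u • x) (u • x) hne.symm i5 hux
  have c4 := hd.cm (f • u • x) (u • x)
  have c5 := hd.cm (f • u • x) x
  have c6 := hd.cm (u • x) x
  have i7 : d (u • x) (f • u • x) = d (u • x) x + d x (f • u • x) := by omega
  have hne' : f • u • x ≠ x := by
    intro h
    have h0 : d x (f • u • x) = 0 := (hd.d0 _ _).2 h.symm
    have c7 := hd.cm x (f • y)
    have c8 := hd.iso f y (u • x)
    have h1 : d (f • y) (f • u • x) = 0 := by omega
    have h2 : d x (f • y) = 0 := by omega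
    rw [c8] at h1
    exact hnd ⟨((hd.d0 _ _).1 h1).symm, ((hd.d0 _ _).1 h2).symm⟩
  have key := hl x (u • x) u f hxy' rfl huu' (by rw [hK]; exact hf) (by rw [hK]; exact hff) i7 hne'
    (by rw [hK]; exact hou) (by rw [hK]; exact hof)
  rw [hK] at key
  rcases key with h | h
  · exfalso
    exact hr h
  · exact h


/-- **The theorem.** -/
theorem main (R G V : Type) [Ring R] [StarRing R] [Group G] [MulAction G V]
    (Q : Subgroup G → Prop) (T : SimpleGraph V) (v w : V)
    (hQ : ∀ x y : V, Q (MulAction.stabilizer G x ⊓ MulAction.stabilizer G y) → SE R G T.dist x y)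
    (hT : T.IsTree) (hact : ∀ (g : G) (x y : V), T.Adj x y → T.Adj (g • x) (g • y))
    (hvw : T.Adj v w) (hinv : ∀ g : G, ¬ (g • v = w ∧ g • w = v))
    (htwo : ∀ g : G, g * g = 1 → (g • v = v ↔ g • w = w))
    (hline : ∀ (x y : V) (g f : G), T.dist x y = T.dist x v + 1 + T.dist w y → g • x = y →
      g • y = x → Ns (MulAction.stabilizer G x ⊓ MulAction.stabilizer G y) f →
      f * f ∈ MulAction.stabilizer G x ⊓ MulAction.stabilizer G y →
      T.dist y (f • y) = T.dist y x + T.dist x (f • y) → f • y ≠ x →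
      (∀ h ∈ MulAction.stabilizer G x ⊓ MulAction.stabilizer G y, h * g * (h * g) ≠ 1) →
      (∀ h ∈ MulAction.stabilizer G x ⊓ MulAction.stabilizer G y, h * f * (h * f) ≠ 1) →
      Q (MulAction.stabilizer G x ⊓ MulAction.stabilizer G y) ∨ Blk R (La (MulAction.stabilizer G x ⊓ MulAction.stabilizer G y) g)
        (La (MulAction.stabilizer G x ⊓ MulAction.stabilizer G y) f))
    (hchain : ∀ x y : ℕ → V,
      (∀ i, T.dist (x i) (y i) = T.dist (x i) v + 1 + T.dist w (y i)) →
      (∀ i, ∃ g : G, g • x i = y i ∧ g • y i = x i) →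
      (∀ i, T.dist (x (i + 1)) (y (i + 1)) =
        T.dist (x (i + 1)) (x i) + T.dist (x i) (y i) + T.dist (y i) (y (i + 1))) →
      (∀ i, MulAction.stabilizer G (x (i + 1)) ⊓ MulAction.stabilizer G (y (i + 1)) <
        MulAction.stabilizer G (x i) ⊓ MulAction.stabilizer G (y i)) →
      ∃ i, Q (MulAction.stabilizer G (x i) ⊓ MulAction.stabilizer G (y i)))
    (ε : ℤˣ) (n : ℕ) (ψ μ χ : Matrix (Fin n) (Fin n) (MonoidAlgebra R G))
    (hψ : SuppIn {g | g • v = v ∧ g • w ≠ w} ψ) (hμ : SuppIn {g | g • v = w} μ)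
    (hχ : SuppIn {g | g • w = w ∧ g • v ≠ v} χ)
    (hnil : IsNilpotent (nu ε (ψ + (ε : ℤ) • ψᴴ) μ (χ + (ε : ℤ) • χᴴ))) :
    StablyHyperbolic ε (UF ψ μ χ) := by
  have hd : TM G (V := V) T.dist := specFPT G V T hT hact
  have h1 : T.dist v w = 1 := SimpleGraph.dist_eq_one_iff_adj.2 hvw
  refine fll R G V Q T v w hQ hT hact hvw hinv htwo ?_ hchain ε n ψ μ χ hψ hμ hχ hnil
  intro x y hxy _
  refine hln R G V Q T.dist hd v w ?_ x y ?_ (by rw [h1]; exact hxy)
  · intro x' y' g f e
    rw [h1] at e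
    exact hline x' y' g f e
  · intro he
    rw [he, (hd.d0 y y).2 rfl] at hxy
    omega


end Pool.Agent.Lib.MP8a3537.LLX
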